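import Pool.Agent.K3h88.LCM.FinalTop
import Pool.Agent.K3h88.LCM.Bries

/-!
# Locally constructible 4-complexes and representations of the fundamental group of the boundary

Let `K` be a locally constructible pure 4-dimensional complex with connected nonempty boundary and
`χ(K) - χ(∂K) = 1` (for example an LC triangulation of a contractible 4-manifold, since then
`χ(K) = 1` and `χ(∂K) = 0`). Then every homomorphism from `π₁(|∂K|)` to the group `SU(2)` of unit
quaternions is trivial. In particular `π₁(|∂K|)` is not isomorphic to the fundamental group of the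
Brieskorn sphere `Σ(2,5,7)` or `Σ(2,3,13)`.

The boundary of Mazur's 4-manifold `W` is one of these two Brieskorn spheres, depending on the
conventions for the attaching curve (Akbulut and Kirby); hence no triangulation of `W` is locally
constructible.

Idea. Seen from the boundary, `K` is made of `∂K` by adding `n` generators and `n` relations to the
fundamental group, with nonsingular exponent matrix mod 2, because the gluings along ridges give a
list of triangles which generate all relations. A homomorphism `π₁(|∂K|) → SU(2)` extends to the new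
generators in such a way that the relations hold (Borsuk-Ulam theorem for a product of `n` spheres
of dimension 3), so that it factors through `π₁(|K|)`, which is trivial.
-/

set_option autoImplicit false

namespace Pool.Agent.Results.MP_07bfe7_gt.BoundaryRepresentations

open Finset Quaternion

/-! A pure 4-dimensional simplicial complex `K` is given by the finite set `F` of its facets, which
are sets of five vertices; its faces are the nonempty subsets of the facets. -/

/-- The faces of the complex generated by the sets in `F`: their nonempty subsets. -/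
def faces {V : Type} [DecidableEq V] (F : Finset (Finset V)) : Finset (Finset V) :=
  (F.biUnion (fun A => A.powerset)).filter (fun s => s.Nonempty)

/-- The Euler characteristic of the complex generated by the sets in `F`. -/
def euler {V : Type} [DecidableEq V] (F : Finset (Finset V)) : ℤ :=
  ∑ s ∈ faces F, (-1) ^ (s.card + 1)

/-- The tetrahedra (faces with four vertices) which lie in exactly `k` facets. -/
def walls {V : Type} [DecidableEq V] (F : Finset (Finset V)) (k : ℕ) : Finset (Finset V) :=
  (faces F).filter (fun τ => τ.card = 4 ∧ (F.filter (fun A => τ ⊆ A)).card = k)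

/-- The boundary complex, given by its facets: the tetrahedra which lie in exactly one facet. -/
def boundary {V : Type} [DecidableEq V] (F : Finset (Finset V)) : Finset (Finset V) :=
  walls F 1

/-- The facets are thought of as disjoint simplices and glued along the tetrahedra in `S`: then the
copy of the face `s` in the facet `A` and the copy of `s` in the facet `B` become the same face if
and only if `A` and `B` are joined by a chain of facets in which consecutive ones have a common
tetrahedron which belongs to `S` and contains `s`. -/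
def SameFace {V : Type} [DecidableEq V] (F S : Finset (Finset V)) (s A B : Finset V) : Prop :=
  Relation.ReflTransGen
    (fun A B => A ∈ F ∧ B ∈ F ∧ ∃ τ ∈ S, s ⊆ τ ∧ τ ⊆ A ∧ τ ⊆ B) A B

/-- The complex `K` with the facets in `F` is locally constructible. -/
def LocallyConstructible {V : Type} [DecidableEq V] (F : Finset (Finset V)) : Prop :=
  -- the complex is pure of dimension 4, and every tetrahedron lies in at most two facets
  F.Nonempty ∧ (∀ A ∈ F, A.card = 5) ∧
  (∀ τ : Finset V, τ.card = 4 → (F.filter (fun A => τ ⊆ A)).card ≤ 2) ∧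
  ∃ (T : Finset (Finset V)) (k : ℕ) (σ : Fin k → Finset V),
    -- the facets, glued along the tetrahedra in `T`, form a tree of 4-simplices
    (T ⊆ walls F 2 ∧ T.card + 1 = F.card ∧ ∀ A ∈ F, ∀ B ∈ F, SameFace F T ∅ A B) ∧
    -- the other interior tetrahedra are `σ 0, ..., σ (k - 1)`, in the order of the gluings
    (Function.Injective σ ∧ (∀ i, σ i ∈ walls F 2 ∧ σ i ∉ T) ∧
      ∀ τ ∈ walls F 2, τ ∈ T ∨ ∃ i, σ i = τ) ∧
    -- before step `i` the two copies of `σ i` have a triangle in common
    (∀ i, ∃ ρ ⊆ σ i, ρ.card = 3 ∧ ∀ A ∈ F, ∀ B ∈ F, σ i ⊆ A → σ i ⊆ B →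
      SameFace F (T ∪ (univ.filter (fun j => j < i)).image σ) ρ A B) ∧
    -- the result of all the gluings is `K`
    ∀ s : Finset V, s.Nonempty → ∀ A ∈ F, ∀ B ∈ F, s ⊆ A → s ⊆ B → SameFace F (walls F 2) s A B

/-- Any two of the sets in `S` are joined by a chain of sets in `S` in which consecutive ones
intersect: the complex generated by `S` is connected. -/
def ChainConnected {V : Type} [DecidableEq V] (S : Finset (Finset V)) : Prop :=
  ∀ s ∈ S, ∀ t ∈ S,
    Relation.ReflTransGen (fun s t => s ∈ S ∧ t ∈ S ∧ (s ∩ t).Nonempty) s t

/-- The underlying space of the complex generated by the sets in `S` (barycentric coordinates), with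
the topology of a subspace of `V → ℝ`. -/
def Realization {V : Type} (S : Finset (Finset V)) : Type :=
  {x : V → ℝ // (∀ v, 0 ≤ x v) ∧ ∃ s ∈ S, (∀ v, v ∉ s → x v = 0) ∧ ∑ v ∈ s, x v = 1}

instance {V : Type} (S : Finset (Finset V)) : TopologicalSpace (Realization S) :=
  inferInstanceAs (TopologicalSpace
    {x : V → ℝ // (∀ v, 0 ≤ x v) ∧ ∃ s ∈ S, (∀ v, v ∉ s → x v = 0) ∧ ∑ v ∈ s, x v = 1})

/-- The relators of the group `⟨x, y, z, h | h central, x² = h⁻¹, y ^ q = h, z ^ r = h², x y z = 1⟩`. -/
def brieskornRelators (q r : ℕ) : Set (FreeGroup (Fin 4)) :=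
  let x := FreeGroup.of 0
  let y := FreeGroup.of 1
  let z := FreeGroup.of 2
  let h := FreeGroup.of 3
  {x * h * x⁻¹ * h⁻¹, y * h * y⁻¹ * h⁻¹, z * h * z⁻¹ * h⁻¹, x ^ 2 * h, y ^ q * h⁻¹,
    z ^ r * h⁻¹ ^ 2, x * y * z}

/-- The group `⟨x, y, z, h | h central, x² = h⁻¹, y ^ q = h, z ^ r = h², x y z = 1⟩`. If
`q r - 2 r - 4 q = 1`, this is the fundamental group of the Brieskorn sphere `Σ(2, q, r)`: the
Seifert fibration of `Σ(2, q, r)` has the invariants `(2, 1), (q, -1), (r, -2)`. -/
def BrieskornGroup (q r : ℕ) : Type := PresentedGroup (brieskornRelators q r)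

instance (q r : ℕ) : Group (BrieskornGroup q r) :=
  inferInstanceAs (Group (PresentedGroup (brieskornRelators q r)))

theorem not_iso {Γ : Type} [Group Γ] {q r : ℕ}
    (h1 : ∃ ψ : BrieskornGroup q r →* Metric.sphere (0 : ℍ[ℝ]) 1, ∃ w, ψ w ≠ 1)
    (h2 : ∀ (φ : Γ →* Metric.sphere (0 : ℍ[ℝ]) 1) (γ : Γ), φ γ = 1) :
    IsEmpty (Γ ≃* BrieskornGroup q r) := by
  refine ⟨fun e => ?_⟩
  obtain ⟨ψ, w, hw⟩ := h1
  apply hw
  have h3 := h2 (ψ.comp e.toMonoidHom) (e.symm w)
  simpa using h3

/-- Let `K` be a locally constructible 4-complex (with the set of facets `F`) with connected boundary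
and `χ(K) - χ(∂K) = 1`. Then every homomorphism from the fundamental group of `|∂K|` to the group
`SU(2)` of unit quaternions is trivial; in particular this fundamental group is not isomorphic to
that of the Brieskorn sphere `Σ(2, 5, 7)` or `Σ(2, 3, 13)`. -/
theorem result {V : Type} [DecidableEq V] (F : Finset (Finset V)) (hF : LocallyConstructible F)
    (hχ : euler F - euler (boundary F) = 1) (hc : ChainConnected (boundary F))
    (x : Realization (boundary F)) :
    (∀ (φ : FundamentalGroup (Realization (boundary F)) x →* Metric.sphere (0 : ℍ[ℝ]) 1)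
      (γ : FundamentalGroup (Realization (boundary F)) x), φ γ = 1) ∧
    IsEmpty (FundamentalGroup (Realization (boundary F)) x ≃* BrieskornGroup 5 7) ∧
    IsEmpty (FundamentalGroup (Realization (boundary F)) x ≃* BrieskornGroup 3 13) := by
  have h1 := fun φ γ => K3h88.LCM.finalTop (F := F) hF hχ hc x φ γ
  refine ⟨h1, not_iso ?_ h1, not_iso ?_ h1⟩
  · obtain ⟨ψ, hψ⟩ := K3h88.LCM.rep57
    exact ⟨ψ, _, hψ⟩
  · obtain ⟨ψ, hψ⟩ := K3h88.LCM.rep313
    exact ⟨ψ, _, hψ⟩

end Pool.Agent.Results.MP_07bfe7_gt.BoundaryRepresentations
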